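import Pool.Agent.Work.MP_0e3695_co.Main

/-!
# No colour-degree condition forces a majority 3-partition

In a majority `3`-partition of the graph constructed here some family of hubs is unanimous
(pigeonhole), which gives unanimous sets of a second colour in the first layer (pigeonhole again)
and hence of the third colour in the second layer.  Attached to such sets there is a gadget on four
vertices `g0, g1, g2, g3` (red edges `g0 g1`, `g2 g1`, blue edges `g0 g3`, `g1 g3`, `g2 g3`) whose
other neighbours are unanimous sets of equal sizes, arranged so that all four vertices avoid the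
third colour, `g0 ≠ g1`, `g2 ≠ g1`, `g1 ≠ g3`, and not all of `g0, g2, g3` agree: a contradiction.
-/

set_option autoImplicit false

namespace Pool.Agent.Results.MP_0e3695_co.NoDegreeCondition

open Pool.Agent.Work.MP_0e3695_co

/-- For every `k` there is a finite `2`-edge-coloured graph (with red graph `R` and blue graph `B`,
which share no edge) in which every vertex has red degree at least `k` and blue degree at least
`k`, but which has no majority `3`-partition. -/
theorem result (k : ℕ) :
    ∃ (V : Type) (_ : Finite V) (R B : SimpleGraph V), Disjoint R B ∧
      (∀ v, k ≤ {w | R.Adj v w}.ncard ∧ k ≤ {w | B.Adj v w}.ncard) ∧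
      ¬ ∃ c : V → Fin 3, IsMajorityThreePartition R B c := by
  have h1 : k ≤ max k 3 := le_max_left _ _
  have h2 : 3 ≤ max k 3 := le_max_right _ _
  refine ⟨Vx (max k 3), inferInstance, redG (max k 3), blueG (max k 3),
    disjoint_red_blue _, fun v => ?_, ?_⟩
  · have h := min_degree (max k 3) (by omega) v
    exact ⟨h1.trans h.1, h1.trans h.2⟩
  · rintro ⟨c, hc⟩
    exact no_partition (max k 3) h2 c hc

end Pool.Agent.Results.MP_0e3695_co.NoDegreeCondition
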